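import Pool.Agent.N183.U8.Stm

/-!
# Project GS (helper183): statement A (reductivity of completely reducible linear Lie algebras)
-/

set_option autoImplicit false

namespace Pool.Agent.N865.GSA

open Module LieAlgebra LieModule

attribute [local instance 100] LieRing.ofAssociativeRing

/-- The derived ideal. -/
abbrev Der (𝔏 : Type) [LieRing 𝔏] [LieAlgebra ℂ 𝔏] : LieIdeal ℂ 𝔏 :=
  ⁅(⊤ : LieIdeal ℂ 𝔏), (⊤ : LieIdeal ℂ 𝔏)⁆

section

variable {𝔏 : Type} [LieRing 𝔏] [LieAlgebra ℂ 𝔏]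

lemma trace_der (W : Type) [AddCommGroup W] [Module ℂ W] [LieRingModule 𝔏 W] [LieModule ℂ 𝔏 W]
    (x : 𝔏) (hx : x ∈ Der 𝔏) : LinearMap.trace ℂ W (toEnd ℂ 𝔏 W x) = 0 := by
  replace hx : x ∈ Submodule.span ℂ {m | ∃ u v : 𝔏, ⁅u, v⁆ = m} := by
    rw [← LieSubmodule.mem_toSubmodule, LieSubmodule.lieIdeal_oper_eq_linear_span'] at hx
    simpa using hx
  refine Submodule.span_induction
    (p := fun x _ ↦ LinearMap.trace ℂ W (toEnd ℂ 𝔏 W x) = 0)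
    ?_ ?_ (fun u v _ _ hu hv ↦ ?_) (fun t u _ hu ↦ ?_) hx
  · intro y ⟨u, v, huv⟩
    simp [← huv]
  · simp
  · simp [hu, hv]
  · simp [hu]

lemma kill (J : LieIdeal ℂ 𝔏) [IsSolvable J] (hJ : J ≤ Der 𝔏)
    (W : Type) [AddCommGroup W] [Module ℂ W] [LieRingModule 𝔏 W] [LieModule ℂ 𝔏 W]
    [FiniteDimensional ℂ W] [Nontrivial W] :
    ∃ w : W, w ≠ 0 ∧ ∀ x ∈ J, ⁅x, w⁆ = 0 := by
  obtain ⟨χ, hχ⟩ : ∃ χ : Module.Dual ℂ J, Nontrivial (weightSpace W χ) :=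
    exists_nontrivial_weightSpace_of_isSolvable ℂ J W
  let N : LieSubmodule ℂ 𝔏 W := weightSpaceOfIsLieTower ℂ W χ
  replace hχ : Nontrivial N := hχ
  have hN : ∀ (x : 𝔏) (hx : x ∈ J) (w : W), w ∈ N → ⁅x, w⁆ = χ ⟨x, hx⟩ • w := by
    intro x hx w hw
    have : ∀ (y : 𝔏) (hy : y ∈ J), ⁅y, w⁆ = χ ⟨y, hy⟩ • w := by
      simpa [N, weightSpaceOfIsLieTower, mem_weightSpace] using hw
    exact this x hx
  have h0 : ∀ (x : 𝔏) (hx : x ∈ J), χ ⟨x, hx⟩ = 0 := by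
    intro x hx
    have h1 : toEnd ℂ 𝔏 N x = χ ⟨x, hx⟩ • LinearMap.id := by
      ext m
      have := hN x hx m m.2
      simpa using this
    have h2 := trace_der N x (hJ hx)
    rw [h1, map_smul, LinearMap.trace_id, smul_eq_mul] at h2
    rcases mul_eq_zero.mp h2 with h | h
    · exact h
    · exfalso
      have : 0 < finrank ℂ N := finrank_pos
      have h' : finrank ℂ N = 0 := by exact_mod_cast h
      omega
  obtain ⟨⟨w, hw⟩, hw0⟩ := exists_ne (0 : N)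
  refine ⟨w, fun h => hw0 (by simp [h]), fun x hx => ?_⟩
  rw [hN x hx w hw, h0 x hx, zero_smul]

lemma solv (V : Type) [AddCommGroup V] [Module ℂ V] [LieRingModule 𝔏 V] [LieModule ℂ 𝔏 V]
    [FiniteDimensional ℂ 𝔏] [FiniteDimensional ℂ V]
    (hf : ∀ x : 𝔏, (∀ v : V, ⁅x, v⁆ = 0) → x = 0) (h : traceForm ℂ 𝔏 V = 0) :
    IsSolvable 𝔏 := by
  have nil := isNilpotent_derivedSeries_of_traceForm_eq_zero h
  rw [LieModule.isNilpotent_iff_forall' (R := ℂ)] at nil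
  have hn : LieRing.IsNilpotent (derivedSeries ℂ 𝔏 1) := by
    rw [LieAlgebra.isNilpotent_iff_forall (R := ℂ)]
    intro x
    have h1 := LieAlgebra.ad_nilpotent_of_nilpotent (R := ℂ) (nil x)
    obtain ⟨n, hn⟩ := h1
    refine ⟨n, ?_⟩
    have h2 : ∀ (m : ℕ) (y : derivedSeries ℂ 𝔏 1),
        toEnd ℂ (derivedSeries ℂ 𝔏 1) V (((ad ℂ (derivedSeries ℂ 𝔏 1) x) ^ m) y) =
        ((ad ℂ (End ℂ V) (toEnd ℂ (derivedSeries ℂ 𝔏 1) V x)) ^ m)
          (toEnd ℂ (derivedSeries ℂ 𝔏 1) V y) := by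
      intro m
      induction m with
      | zero => intro y; simp
      | succ m ih =>
        intro y
        rw [pow_succ, pow_succ, Module.End.mul_apply, Module.End.mul_apply, ih, ad_apply,
          ad_apply, LieHom.map_lie]
    ext y
    have h3 := h2 n y
    rw [hn] at h3
    have h4 : (((ad ℂ (derivedSeries ℂ 𝔏 1) x) ^ n) y : 𝔏) = 0 := by
      apply hf
      intro v
      have := congrArg (fun f => f v) h3
      simpa using this
    simpa using h4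
  have hs : IsSolvable (derivedSeries ℂ 𝔏 1) := inferInstance
  obtain ⟨k, hk⟩ := IsSolvable.solvable ℂ (derivedSeries ℂ 𝔏 1)
  rw [LieIdeal.derivedSeries_eq_bot_iff] at hk
  refine IsSolvable.mk (R := ℂ) (k := k + 1) ?_
  rw [← hk, ← derivedSeriesOfIdeal_add]

variable (V : Type) [AddCommGroup V] [Module ℂ V] [LieRingModule 𝔏 V] [LieModule ℂ 𝔏 V]

/-- The vectors killed by an ideal. -/
def inv (J : LieIdeal ℂ 𝔏) : LieSubmodule ℂ 𝔏 V where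
  carrier := {v | ∀ x ∈ J, ⁅x, v⁆ = 0}
  add_mem' := by
    intro a b ha hb x hx
    rw [lie_add, ha x hx, hb x hx, add_zero]
  zero_mem' := by
    intro x hx
    simp
  smul_mem' := by
    intro c v hv x hx
    rw [lie_smul, hv x hx, smul_zero]
  lie_mem := by
    intro y v hv x hx
    rw [leibniz_lie, hv x hx, lie_zero, add_zero]
    exact hv _ (by rw [← lie_skew]; exact J.neg_mem (lie_mem_right ℂ 𝔏 J y x hx))

lemma mem_inv (J : LieIdeal ℂ 𝔏) (v : V) : v ∈ inv V J ↔ ∀ x ∈ J, ⁅x, v⁆ = 0 := Iff.rfl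

lemma solvable_ideal_zero [FiniteDimensional ℂ V]
    (hf : ∀ x : 𝔏, (∀ v : V, ⁅x, v⁆ = 0) → x = 0)
    (hcr : ∀ N : LieSubmodule ℂ 𝔏 V, ∃ N' : LieSubmodule ℂ 𝔏 V, N ⊓ N' = ⊥ ∧ N ⊔ N' = ⊤)
    (J : LieIdeal ℂ 𝔏) [IsSolvable J] (hJ : J ≤ Der 𝔏) : ∀ x ∈ J, x = 0 := by
  obtain ⟨N', h1, h2⟩ := hcr (inv V J)
  have h3 : ¬ Nontrivial N' := by
    intro hnt
    obtain ⟨w, hw, hw'⟩ := kill J hJ N'
    have h4 : (w : V) ∈ inv V J ⊓ N' := by
      refine (LieSubmodule.mem_inf _ _ _).2 ⟨?_, w.2⟩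
      intro x hx
      have := congrArg (fun y : N' => (y : V)) (hw' x hx)
      simpa using this
    rw [h1] at h4
    apply hw
    simpa using h4
  have h5 : inv V J = ⊤ := by
    rw [← h2]
    have : N' = ⊥ := by
      rw [not_nontrivial_iff_subsingleton] at h3
      rw [LieSubmodule.eq_bot_iff]
      intro m hm
      have := Subsingleton.elim (⟨m, hm⟩ : N') 0
      simpa using congrArg (fun y : N' => (y : V)) this
    rw [this, sup_bot_eq]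
  intro x hx
  apply hf
  intro v
  have : v ∈ inv V J := by rw [h5]; trivial
  exact this x hx

/-- The orthogonal (for the trace form) of `K` inside the derived ideal. -/
def perp (K : LieIdeal ℂ 𝔏) : LieIdeal ℂ 𝔏 where
  carrier := {x | x ∈ Der 𝔏 ∧ ∀ y ∈ K, traceForm ℂ 𝔏 V x y = 0}
  add_mem' := by
    intro a b ha hb
    refine ⟨add_mem ha.1 hb.1, fun y hy => ?_⟩
    rw [map_add, LinearMap.add_apply, ha.2 y hy, hb.2 y hy, add_zero]
  zero_mem' := ⟨zero_mem _, fun y hy => by simp⟩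
  smul_mem' := by
    intro c v hv
    refine ⟨(Der 𝔏).smul_mem c hv.1, fun y hy => ?_⟩
    rw [map_smul, LinearMap.smul_apply, hv.2 y hy, smul_zero]
  lie_mem := by
    intro z v hv
    refine ⟨lie_mem_right ℂ 𝔏 _ z v hv.1, fun y hy => ?_⟩
    have h1 := traceForm_apply_lie_apply ℂ 𝔏 V v z y
    rw [← lie_skew, map_neg, LinearMap.neg_apply, h1, hv.2 _ (lie_mem_right ℂ 𝔏 K z y hy),
      neg_zero]

lemma mem_perp (K : LieIdeal ℂ 𝔏) (x : 𝔏) :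
    x ∈ perp V K ↔ x ∈ Der 𝔏 ∧ ∀ y ∈ K, traceForm ℂ 𝔏 V x y = 0 := Iff.rfl

lemma inf_perp [FiniteDimensional ℂ 𝔏] [FiniteDimensional ℂ V]
    (hf : ∀ x : 𝔏, (∀ v : V, ⁅x, v⁆ = 0) → x = 0)
    (hcr : ∀ N : LieSubmodule ℂ 𝔏 V, ∃ N' : LieSubmodule ℂ 𝔏 V, N ⊓ N' = ⊥ ∧ N ⊔ N' = ⊤)
    (K : LieIdeal ℂ 𝔏) : ∀ x ∈ K, x ∈ perp V K → x = 0 := by
  have : IsSolvable (K ⊓ perp V K : LieIdeal ℂ 𝔏) := by
    apply solv V
    · intro x hx
      have := hf x (fun v => hx v)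
      simpa using this
    · ext x y
      have h1 := (LieSubmodule.mem_inf _ _ _).1 x.2
      have h2 := (LieSubmodule.mem_inf _ _ _).1 y.2
      exact h1.2.2 y h2.1
  intro x hx hx'
  refine solvable_ideal_zero V hf hcr (K ⊓ perp V K) ?_ x ((LieSubmodule.mem_inf _ _ _).2 ⟨hx, hx'⟩)
  intro z hz
  exact ((LieSubmodule.mem_inf _ _ _).1 hz).2.1

lemma decomp [FiniteDimensional ℂ 𝔏] [FiniteDimensional ℂ V]
    (hf : ∀ x : 𝔏, (∀ v : V, ⁅x, v⁆ = 0) → x = 0)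
    (hcr : ∀ N : LieSubmodule ℂ 𝔏 V, ∃ N' : LieSubmodule ℂ 𝔏 V, N ⊓ N' = ⊥ ∧ N ⊔ N' = ⊤)
    (K : LieIdeal ℂ 𝔏) (hK : K ≤ Der 𝔏) (d : 𝔏) (hd : d ∈ Der 𝔏) :
    ∃ k ∈ K, ∃ i ∈ perp V K, d = k + i := by
  have hinj : Function.Injective
      ((traceForm ℂ 𝔏 V).domRestrict₁₂ K.toSubmodule K.toSubmodule) := by
    rw [← LinearMap.ker_eq_bot, LinearMap.ker_eq_bot']
    intro x hx
    have := inf_perp V hf hcr K x x.2 ⟨hK x.2, fun y hy => by
      have := congrArg (fun f => f (⟨y, hy⟩ : K.toSubmodule)) hx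
      exact this⟩
    exact Subtype.ext this
  have hsurj : Function.Surjective
      ((traceForm ℂ 𝔏 V).domRestrict₁₂ K.toSubmodule K.toSubmodule) := by
    have : finrank ℂ K.toSubmodule = finrank ℂ (K.toSubmodule →ₗ[ℂ] ℂ) := by
      exact (Subspace.dual_finrank_eq (K := ℂ) (V := K.toSubmodule)).symm
    exact (LinearMap.injective_iff_surjective_of_finrank_eq_finrank this).1 hinj
  obtain ⟨k, hk⟩ := hsurj ((traceForm ℂ 𝔏 V d).domRestrict K.toSubmodule)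
  refine ⟨k, k.2, d - k, ⟨sub_mem hd (hK k.2), fun y hy => ?_⟩, by abel⟩
  have := congrArg (fun f => f (⟨y, hy⟩ : K.toSubmodule)) hk
  simp only [LinearMap.domRestrict₁₂_apply, LinearMap.domRestrict_apply] at this
  rw [map_sub, LinearMap.sub_apply, ← this, sub_self]

theorem main [FiniteDimensional ℂ 𝔏] [FiniteDimensional ℂ V]
    (hf : ∀ x : 𝔏, (∀ v : V, ⁅x, v⁆ = 0) → x = 0)
    (hcr : ∀ N : LieSubmodule ℂ 𝔏 V, ∃ N' : LieSubmodule ℂ 𝔏 V, N ⊓ N' = ⊥ ∧ N ⊔ N' = ⊤)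
    (U : LieSubmodule ℂ 𝔏 V) :
    ∃ I : LieIdeal ℂ 𝔏, (∀ x ∈ I, (∀ u ∈ U, ⁅x, u⁆ = 0) → x = 0) ∧
      ∀ a b : 𝔏, ∃ c ∈ I, ∀ u ∈ U, ⁅c, u⁆ = ⁅⁅a, b⁆, u⁆ := by
  let K : LieIdeal ℂ 𝔏 := Der 𝔏 ⊓ LieModule.ker ℂ 𝔏 U
  have hK : ∀ x : 𝔏, x ∈ K ↔ x ∈ Der 𝔏 ∧ ∀ u ∈ U, ⁅x, u⁆ = 0 := by
    intro x
    rw [LieSubmodule.mem_inf, LieModule.mem_ker]
    refine and_congr_right fun _ => ⟨fun h u hu => ?_, fun h u => ?_⟩
    · have := congrArg (fun y : U => (y : V)) (h ⟨u, hu⟩)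
      simpa using this
    · exact Subtype.ext (h u u.2)
  refine ⟨perp V K, fun x hx hx' => ?_, fun a b => ?_⟩
  · exact inf_perp V hf hcr K x ((hK x).2 ⟨hx.1, hx'⟩) hx
  · obtain ⟨k, hk, i, hi, hki⟩ := decomp V hf hcr K (fun x hx => ((hK x).1 hx).1) ⁅a, b⁆
      (LieSubmodule.lie_mem_lie (LieSubmodule.mem_top a) (LieSubmodule.mem_top b))
    refine ⟨i, hi, fun u hu => ?_⟩
    rw [hki, add_lie, ((hK k).1 hk).2 u hu, zero_add]

end

open Pool.Agent.N183.U8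

theorem A : S_A := by
  intro V _ _ _ L hBr hCR U hU
  let 𝔏 : LieSubalgebra ℂ (End ℂ V) :=
    { L with
      lie_mem' := by
        intro x y hx hy
        rw [LieRing.of_associative_ring_bracket]
        exact hBr x hx y hy }
  have hact : ∀ (x : 𝔏) (v : V), ⁅x, v⁆ = (x : End ℂ V) v := fun x v => rfl
  let mk : ∀ W : Submodule ℂ V, Stb L W → LieSubmodule ℂ 𝔏 V := fun W hW =>
    { W with
      lie_mem := by
        intro x m hm
        exact hW x x.2 m hm }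
  have hst : ∀ N : LieSubmodule ℂ 𝔏 V, Stb L N.toSubmodule := fun N A hA u hu =>
    N.lie_mem (x := (⟨A, hA⟩ : 𝔏)) hu
  obtain ⟨I, hI1, hI2⟩ := main (𝔏 := 𝔏) V
    (by
      intro x hx
      apply Subtype.ext
      ext v
      exact hx v)
    (by
      intro N
      obtain ⟨W, hW, hW'⟩ := hCR N.toSubmodule (hst N)
      refine ⟨mk W hW, ?_, ?_⟩
      · apply LieSubmodule.toSubmodule_injective
        have := hW'.inf_eq_bot
        simpa using this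
      · apply LieSubmodule.toSubmodule_injective
        have := hW'.sup_eq_top
        simpa using this)
    (mk U hU)
  refine ⟨I.toSubmodule.map 𝔏.toSubmodule.subtype, ?_, ?_, ?_, ?_⟩
  · rintro _ ⟨x, hx, rfl⟩
    exact x.2
  · rintro A hA _ ⟨x, hx, rfl⟩
    exact ⟨⁅(⟨A, hA⟩ : 𝔏), x⁆, lie_mem_right ℂ 𝔏 I _ x hx, rfl⟩
  · rintro _ ⟨x, hx, rfl⟩ h
    have := hI1 x hx (fun u hu => h u hu)
    rw [this]
    rfl
  · intro A hA B hB
    obtain ⟨c, hc, hc'⟩ := hI2 ⟨A, hA⟩ ⟨B, hB⟩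
    exact ⟨c, ⟨c, hc, rfl⟩, fun u hu => hc' u hu⟩

end Pool.Agent.N865.GSA
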