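import Pool.Agent.N585.PT.Defs

/-!
# Project PT (helper585): trees with decompositions are transformed paths
-/

set_option autoImplicit false

namespace Pool.Agent.N865.PTIso

open Pool.Agent.N585.PT

/-- The set of replaced edges of a sequence of linked paths. -/
lemma ind {V : Type} (G : SimpleGraph V) : ∀ (L : List (List V)) (Q : List V),
    (∀ R ∈ Q :: L, R ≠ [] ∧ R.IsChain G.Adj) → (Q :: L).IsChain (Link G) →
    ∃ (A : Finset ℕ) (t : ℕ → ℕ), Ok (Q :: L).flatten.length A t ∧
      (∀ a ∈ A, Q.length ≤ a + 1) ∧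
      (∀ (i : ℕ) (x y : V), (Q :: L).flatten[i]? = some x → (Q :: L).flatten[i + 1]? = some y →
        i ∉ A → G.Adj x y) ∧
      (∀ a ∈ A, ∀ x y : V, (Q :: L).flatten[a - t a]? = some x →
        (Q :: L).flatten[a + 1 + t a]? = some y → G.Adj x y) := by
  intro L
  induction L with
  | nil =>
    intro Q hQ _
    refine ⟨∅, fun _ => 0, by intro a ha; simp at ha, by simp, ?_, by simp⟩
    intro i x y hx hy _
    have hc := (hQ Q (by simp)).2
    simp only [List.flatten_cons, List.flatten_nil, List.append_nil] at hx hy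
    obtain ⟨hi, rfl⟩ := List.getElem?_eq_some_iff.1 hx
    obtain ⟨hj, rfl⟩ := List.getElem?_eq_some_iff.1 hy
    exact List.isChain_iff_getElem.1 hc i hj
  | cons Q' L ih =>
    intro Q hQ hL
    have hL' := hL
    rw [List.isChain_cons_cons] at hL
    obtain ⟨⟨t₀, x₀, y₀, hx₀, hy₀, hadj⟩, hL2⟩ := hL
    obtain ⟨A, t, hOk, hA, h1, h2⟩ := ih Q' (fun R hR => hQ R (List.mem_cons_of_mem _ hR)) hL2
    have hc := (hQ Q (by simp)).2
    have hne := (hQ Q (by simp)).1
    have hQpos : 0 < Q.length := List.length_pos_iff.2 hne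
    obtain ⟨ht1, rfl⟩ := List.getElem?_eq_some_iff.1 hx₀
    obtain ⟨ht2, rfl⟩ := List.getElem?_eq_some_iff.1 hy₀
    rw [List.length_reverse] at ht1
    set F := (Q' :: L).flatten with hF
    have hFl : (Q :: Q' :: L).flatten = Q ++ F := by simp [hF]
    have hFq : F = Q' ++ L.flatten := by simp [hF]
    have hFlen : Q'.length ≤ F.length := by rw [hFq, List.length_append]; omega
    have hget1 : ∀ i, i < Q.length → (Q ++ F)[i]? = Q[i]? := fun i hi =>
      List.getElem?_append_left hi
    have hget2 : ∀ i, Q.length ≤ i → (Q ++ F)[i]? = F[i - Q.length]? := fun i hi =>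
      List.getElem?_append_right hi
    have hrev : Q.reverse[t₀]'(by rw [List.length_reverse]; exact ht1) =
        Q[Q.length - 1 - t₀]'(by omega) := List.getElem_reverse _
    have hFt : F[t₀]? = some Q'[t₀] := by
      rw [hFq, List.getElem?_append_left ht2]
      exact List.getElem?_eq_getElem ht2
    rw [hFl]
    let A' : Finset ℕ := A.map ⟨fun i => i + Q.length, fun a b h => by simpa using h⟩ ∪
      (if t₀ = 0 then ∅ else {Q.length - 1})
    let t' : ℕ → ℕ := fun i => if Q.length ≤ i then t (i - Q.length) else t₀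
    have hmem : ∀ a, a ∈ A' ↔ (∃ b ∈ A, b + Q.length = a) ∨ (t₀ ≠ 0 ∧ a = Q.length - 1) := by
      intro a
      simp only [A', Finset.mem_union, Finset.mem_map, Function.Embedding.coeFn_mk]
      refine or_congr Iff.rfl ?_
      split_ifs with h
      · simp [h]
      · simp [h]
    have ht'1 : ∀ b, t' (b + Q.length) = t b := by
      intro b
      simp [t']
    have ht'2 : t' (Q.length - 1) = t₀ := by
      have : ¬ Q.length ≤ Q.length - 1 := by omega
      simp [t', this]
    refine ⟨A', t', ?_, ?_, ?_, ?_⟩
    · intro a ha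
      rw [List.length_append]
      rcases (hmem a).1 ha with ⟨b, hb, rfl⟩ | ⟨h0, rfl⟩
      · obtain ⟨o1, o2, o3, o4⟩ := hOk b hb
        rw [ht'1]
        refine ⟨o1, by omega, by omega, ?_⟩
        intro c hc hcb
        rcases (hmem c).1 hc with ⟨d, hd, rfl⟩ | ⟨h0, rfl⟩
        · have := o4 d hd (by omega)
          rw [ht'1]
          omega
        · rw [ht'2]
          have := hA b hb
          omega
      · rw [ht'2]
        refine ⟨by omega, by omega, by omega, ?_⟩
        intro c hc hcb
        rcases (hmem c).1 hc with ⟨d, hd, rfl⟩ | ⟨h0, rfl⟩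
        · omega
        · omega
    · intro a ha
      rcases (hmem a).1 ha with ⟨b, hb, rfl⟩ | ⟨h0, rfl⟩
      · omega
      · omega
    · intro i x y hx hy hi
      by_cases hiQ : i + 1 < Q.length
      · rw [hget1 i (by omega)] at hx
        rw [hget1 (i + 1) hiQ] at hy
        obtain ⟨hi1, rfl⟩ := List.getElem?_eq_some_iff.1 hx
        obtain ⟨hj1, rfl⟩ := List.getElem?_eq_some_iff.1 hy
        exact List.isChain_iff_getElem.1 hc i hj1
      · by_cases hiQ2 : i + 1 = Q.length
        · have h0 : t₀ = 0 := by
            by_contra h0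
            exact hi ((hmem i).2 (Or.inr ⟨h0, by omega⟩))
          subst h0
          rw [hget1 i (by omega)] at hx
          rw [hget2 (i + 1) (by omega), hiQ2, Nat.sub_self, hFt] at hy
          obtain ⟨hi1, rfl⟩ := List.getElem?_eq_some_iff.1 hx
          have hy' := Option.some.inj hy
          rw [← hy']
          rw [hrev] at hadj
          have e1 : Q.length - 1 - 0 = i := by omega
          simp only [e1] at hadj
          exact hadj
        · rw [hget2 i (by omega)] at hx
          rw [hget2 (i + 1) (by omega)] at hy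
          have e1 : i + 1 - Q.length = i - Q.length + 1 := by omega
          rw [e1] at hy
          refine h1 (i - Q.length) x y hx hy ?_
          intro hm
          exact hi ((hmem i).2 (Or.inl ⟨i - Q.length, hm, by omega⟩))
    · intro a ha x y hx hy
      rcases (hmem a).1 ha with ⟨b, hb, rfl⟩ | ⟨h0, rfl⟩
      · obtain ⟨o1, o2, o3, o4⟩ := hOk b hb
        rw [ht'1] at hx hy
        rw [hget2 _ (by omega)] at hx hy
        have e1 : b + Q.length - t b - Q.length = b - t b := by omega
        have e2 : b + Q.length + 1 + t b - Q.length = b + 1 + t b := by omega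
        rw [e1] at hx
        rw [e2] at hy
        exact h2 b hb x y hx hy
      · rw [ht'2] at hx hy
        rw [hget1 _ (by omega)] at hx
        rw [hget2 _ (by omega)] at hy
        have e2 : Q.length - 1 + 1 + t₀ - Q.length = t₀ := by omega
        rw [e2, hFt] at hy
        obtain ⟨hi1, rfl⟩ := List.getElem?_eq_some_iff.1 hx
        have hy' := Option.some.inj hy
        rw [← hy']
        rw [hrev] at hadj
        exact hadj

/-- A connected spanning subgraph of a tree is the tree. -/
lemma eq_of_le {W : Type} [Fintype W] (H K : SimpleGraph W) (hH : H.IsTree) (hK : K.IsTree)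
    (h : H ≤ K) : H = K := by
  classical
  have h1 := hH.card_edgeFinset
  have h2 := hK.card_edgeFinset
  have h3 : H.edgeFinset ⊆ K.edgeFinset := SimpleGraph.edgeFinset_subset_edgeFinset.2 h
  have h4 := Finset.eq_of_subset_of_card_le h3 (by omega)
  exact SimpleGraph.edgeFinset_inj.1 h4

theorem stmIso (h : StmTree) : StmIso := by
  classical
  intro V _ G hG hDec
  obtain ⟨L, ⟨hL1, hL2, hL3⟩, hL4⟩ := hDec
  have hne : Nonempty V := hG.1.nonempty
  obtain ⟨v⟩ := hne
  cases L with
  | nil => exact absurd (hL4 v) (by simp)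
  | cons Q L =>
    obtain ⟨A, t, hOk, -, h1, h2⟩ := ind G L Q hL1 hL2
    set F := (Q :: L).flatten with hF
    have hpos : 0 < F.length := List.length_pos_of_mem (hL4 v)
    let σ : Fin F.length ≃ V := List.Nodup.getEquivOfForallMemList F hL3 hL4
    have hσ : ∀ i, σ i = F[i.1] := fun i => rfl
    have hle : trG F.length A t ≤ G.comap σ := by
      intro i j hij
      rw [SimpleGraph.comap_adj]
      have key : ∀ i j : Fin F.length, ((j.1 = i.1 + 1 ∧ i.1 ∉ A) ∨
          ∃ a ∈ A, i.1 + t a = a ∧ j.1 = a + 1 + t a) → G.Adj (σ i) (σ j) := by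
        intro i j hij
        rcases hij with ⟨e, hi⟩ | ⟨a, ha, e1, e2⟩
        · refine h1 i.1 (σ i) (σ j) ?_ ?_ hi
          · rw [hσ, List.getElem?_eq_getElem i.2]
          · rw [← e, hσ, List.getElem?_eq_getElem j.2]
        · refine h2 a ha (σ i) (σ j) ?_ ?_
          · have e3 : a - t a = i.1 := by omega
            rw [e3, hσ, List.getElem?_eq_getElem i.2]
          · rw [← e2, hσ, List.getElem?_eq_getElem j.2]
      rw [trG, SimpleGraph.fromRel_adj] at hij
      rcases hij.2 with hij | hij
      · exact key i j hij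
      · exact (key j i hij).symm
    have htree := (h F.length A t hpos hOk).1
    have hiso : G.comap σ ≃g G := SimpleGraph.Iso.comap σ G
    have hG' : (G.comap σ).IsTree := hiso.isTree_iff.2 hG
    have heq := eq_of_le _ _ htree hG' hle
    refine ⟨F.length, A, t, hpos, hOk, ⟨?_⟩⟩
    rw [heq]
    exact hiso.symm

end Pool.Agent.N865.PTIso
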