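import Pool.Agent.N502.TM.Stm

/-!
# Project TM: one polarization does not increase the infimum of the energies
-/

set_option autoImplicit false

namespace Pool.Agent.N865.TM_CMP

open MeasureTheory Set Filter Topology
open scoped ENNReal Real InnerProductSpace
open Pool.Agent.N502.TM

theorem pow_heat {d : ℕ} {T : ℝ → (L2 d →L[ℝ] L2 d)} (hT : IsHeat d T) {τ : ℝ} (hτ : 0 < τ)
    (k : ℕ) : ∀ u : L2 d, ((T τ) ^ (k + 1)) u = T (((k : ℝ) + 1) * τ) u := by
  induction k with
  | zero =>
    intro u
    simp
  | succ k ih =>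
    intro u
    rw [pow_succ']
    show T τ (((T τ) ^ (k + 1)) u) = _
    rw [ih u, hT.semi τ (((k : ℝ) + 1) * τ) hτ (by positivity) u]
    congr 2
    push_cast
    ring

theorem main : S_CMP := by
  intro _hC hH hD hP hO d T hT v t τ b hv hτ hb0 hb1 E hE hEf J hJ
  have hPm := hP.meas d v t E hv hE
  have hPv := hP.vol d v t E hv hE
  by_cases h0 : volume E = 0
  · intro f hf
    exfalso
    have hz : volume (polS v t E) = 0 := by rw [hPv, h0]
    have h1 : ∀ᵐ x : V d, x ∉ polS v t E := by
      rw [ae_iff]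
      simpa using hz
    have h2 : ∀ᵐ x : V d, f x = 0 := by
      filter_upwards [h1, hf.2.1] with x hx hx'
      exact hx' hx
    have h3 : ∫ x, f x = 0 := by
      rw [integral_congr_ae h2]
      simp
    rw [hf.2.2] at h3
    exact one_ne_zero h3
  · have hS : T (τ / 2) * T (τ / 2) = T τ := by
      ext1 f
      show T (τ / 2) (T (τ / 2) f) = T τ f
      rw [hT.semi _ _ (by positivity) (by positivity)]
      congr 2
      ring
    have hfin : volume (polS v t E) ≠ ∞ := by rw [hPv]; exact hEf
    have key := hH _hC (L2 d) (T (τ / 2)) b hb0 hb1 (hT.norm_le _ (by positivity))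
      (hT.symm _ (by positivity)) (Dens E) (Dens (polS v t E)) J (hD.convex d E hE hEf)
      (hD.closed d E hE hEf) (hD.nonempty d E hE hEf h0) (by rw [hS]; exact hJ)
    rw [hS] at key
    refine key ?_
    intro u I hu
    obtain ⟨w, hw1, hw2, hw3⟩ := hO hP d T hT v t hv u
    refine ⟨w, hw2, ?_, ?_⟩
    · intro k hk
      obtain ⟨k, rfl⟩ : ∃ j, k = j + 1 := ⟨k - 1, by omega⟩
      rw [pow_heat hT hτ, pow_heat hT hτ]
      exact hw3 _ (by positivity)
    · have h1 := hP.ae_le d v t E u I hv (hD.ae_le d E hE hEf u I hu)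
      refine hD.le_inner d _ hPm hfin w I ?_
      filter_upwards [h1, hw1] with x hx hx' hxE
      rw [hx']
      exact hx hxE

end Pool.Agent.N865.TM_CMP
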